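import Pool.Agent.W308.PG.Cas1

/-!
Project PG, task CAS: the Casimir inequality.
-/

set_option autoImplicit false
set_option linter.unusedSectionVars false

open Matrix Finset Module

namespace Pool.Agent.W308.PG

open Pool.Agent.W544.PG

noncomputable section

variable {p q : ℕ}

/-! ### degrees -/

/-- the grading -/
def gr : I p q → ℤ := Sum.elim (fun _ => 1) (Sum.elim (fun _ => 0) (fun _ => -1))

/-- `X` is homogeneous of degree `k` -/
def Deg (k : ℤ) (X : Matrix (I p q) (I p q) ℂ) : Prop := ∀ i j, X i j ≠ 0 → gr i - gr j = k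

theorem deg0 (X : Matrix (Fin p) (Fin p) ℂ × Matrix (Fin q) (Fin q) ℂ) : Deg 0 (big0 X) := by
  rintro (i | i | i) (j | j | j) h <;> simp [big0, gr] at h ⊢

theorem deg1 (F : Matrix (Fin p) (Fin q) ℂ) : Deg 1 (big1 F) := by
  rintro (i | i | i) (j | j | j) h <;> simp [big1, gr] at h ⊢

theorem deg2 (Y : Matrix (Fin p) (Fin p) ℂ) : Deg 2 (big2 (q := q) Y) := by
  rintro (i | i | i) (j | j | j) h <;> simp [big2, gr] at h ⊢

theorem degH {k : ℤ} {X : Matrix (I p q) (I p q) ℂ} (h : Deg k X) : Deg (-k) Xᴴ := by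
  intro i j hij
  rw [conjTranspose_apply] at hij
  have h1 : X j i ≠ 0 := fun h0 => hij (by rw [h0, star_zero])
  have := h j i h1
  omega

theorem ip_deg {k l : ℤ} {X Y : Matrix (I p q) (I p q) ℂ} (hX : Deg k X) (hY : Deg l Y)
    (h : k ≠ l) : ip X Y = 0 := by
  unfold ip trace
  refine sum_eq_zero fun j _ => ?_
  rw [diag_apply, mul_apply]
  refine sum_eq_zero fun i _ => ?_
  rw [conjTranspose_apply]
  by_cases h1 : X i j = 0
  · rw [h1, star_zero, zero_mul]
  · by_cases h2 : Y i j = 0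
    · rw [h2, mul_zero]
    · exact absurd ((hX i j h1).symm.trans (hY i j h2)) h

/-! ### the linear maps -/

/-- `big0` as a linear map -/
def big0L : (Matrix (Fin p) (Fin p) ℂ × Matrix (Fin q) (Fin q) ℂ) →ₗ[ℂ]
    Matrix (I p q) (I p q) ℂ where
  toFun := big0
  map_add' X Y := by
    ext (i | i | i) (j | j | j) <;> simp [big0]
    ring
  map_smul' c X := by
    ext (i | i | i) (j | j | j) <;> simp [big0]

/-- `big1` as a linear map -/
def big1L : Matrix (Fin p) (Fin q) ℂ →ₗ[ℂ] Matrix (I p q) (I p q) ℂ where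
  toFun := big1
  map_add' X Y := by
    ext (i | i | i) (j | j | j) <;> simp [big1]
    ring
  map_smul' c X := by
    ext (i | i | i) (j | j | j) <;> simp [big1]

/-- `big2` as a linear map -/
def big2L : Matrix (Fin p) (Fin p) ℂ →ₗ[ℂ] Matrix (I p q) (I p q) ℂ where
  toFun := big2
  map_add' X Y := by
    ext (i | i | i) (j | j | j) <;> simp [big2]
  map_smul' c X := by
    ext (i | i | i) (j | j | j) <;> simp [big2]

theorem big0L_inj : Function.Injective (big0L (p := p) (q := q)) := by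
  intro X Y h
  have h1 : ∀ a b, big0 X a b = big0 Y a b := fun a b => congrFun (congrFun h a) b
  refine Prod.ext ?_ ?_
  · ext i j
    have := h1 (Sum.inl i) (Sum.inl j)
    simpa [big0] using this
  · ext i j
    have := h1 (Sum.inr (Sum.inl i)) (Sum.inr (Sum.inl j))
    simpa [big0] using this

theorem big1L_inj : Function.Injective (big1L (p := p) (q := q)) := by
  intro X Y h
  have h1 : ∀ a b, big1 X a b = big1 Y a b := fun a b => congrFun (congrFun h a) b
  ext i j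
  have := h1 (Sum.inl i) (Sum.inr (Sum.inl j))
  simpa [big1] using this

theorem big2L_inj : Function.Injective (big2L (p := p) (q := q)) := by
  intro X Y h
  have h1 : ∀ a b, big2 (q := q) X a b = big2 Y a b := fun a b => congrFun (congrFun h a) b
  ext i j
  have := h1 (Sum.inl i) (Sum.inr (Sum.inr j))
  simpa [big2] using this

theorem finrank_map' {M N : Type} [AddCommGroup M] [Module ℂ M] [AddCommGroup N] [Module ℂ N]
    (f : M →ₗ[ℂ] N) (hf : Function.Injective f) (W : Submodule ℂ M) :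
    finrank ℂ (W.map f) = finrank ℂ W :=
  (LinearEquiv.finrank_eq (Submodule.equivMapOfInjective f hf W)).symm

/-! ### norms -/

/-- squared norm of the row `i` -/
def rw' (X : Matrix (I p q) (I p q) ℂ) (i : I p q) : ℝ := ∑ k, Complex.normSq (X i k)

/-- squared norm of the rows of `V_0` -/
def N0 (X : Matrix (I p q) (I p q) ℂ) : ℝ := ∑ i : Fin q, rw' X (Sum.inr (Sum.inl i))

/-- squared norm -/
def NN (X : Matrix (I p q) (I p q) ℂ) : ℝ := ∑ i, rw' X i

theorem mul_H_apply (X : Matrix (I p q) (I p q) ℂ) (i : I p q) :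
    (X * Xᴴ) i i = (rw' X i : ℂ) := by
  rw [mul_apply]
  unfold rw'
  push_cast
  refine sum_congr rfl fun k _ => ?_
  rw [conjTranspose_apply, Complex.normSq_eq_conj_mul_self, mul_comm]
  rfl

theorem ip_self (X : Matrix (I p q) (I p q) ℂ) : ip X X = (NN X : ℂ) := by
  unfold ip NN
  rw [trace_mul_comm, trace]
  push_cast
  exact sum_congr rfl fun i _ => mul_H_apply X i

theorem NN_H (X : Matrix (I p q) (I p q) ℂ) : NN Xᴴ = NN X := by
  unfold NN rw'
  rw [sum_comm]
  refine sum_congr rfl fun i _ => sum_congr rfl fun k _ => ?_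
  rw [conjTranspose_apply]
  exact Complex.normSq_conj _

theorem N0_big1 (F : Matrix (Fin p) (Fin q) ℂ) : 2 * N0 (big1 F) = NN (big1 F) := by
  unfold N0 NN rw'
  simp [big1, Fintype.sum_sum_type]
  rw [sum_comm (s := (univ : Finset (Fin q)))]
  ring

theorem N0_big1H (F : Matrix (Fin p) (Fin q) ℂ) : 2 * N0 (big1 F)ᴴ = NN (big1 F) := by
  unfold N0 NN rw'
  simp [big1, Fintype.sum_sum_type]
  rw [sum_comm (s := (univ : Finset (Fin q)))]
  ring

theorem N0_big2 (Y : Matrix (Fin p) (Fin p) ℂ) : N0 (big2 (q := q) Y) = 0 := by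
  unfold N0 rw'
  simp [big2, Fintype.sum_sum_type]

theorem N0_big2H (Y : Matrix (Fin p) (Fin p) ℂ) : N0 (big2 (q := q) Y)ᴴ = 0 := by
  unfold N0 rw'
  simp [big2, Fintype.sum_sum_type]

/-- the inner product with the grading element -/
theorem ip_x0 (X : Matrix (Fin p) (Fin p) ℂ × Matrix (Fin q) (Fin q) ℂ) :
    Complex.normSq (ip (big0 X) (x0 p q)) ≤ 2 * p * (NN (big0 X) - N0 (big0 X)) := by
  have h1 : ip (big0 X) (x0 p q) = 2 * ∑ i, star (X.1 i i) := by
    unfold ip x0 trace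
    simp [big0, Fintype.sum_sum_type, Matrix.mul_apply, Matrix.one_apply]
    ring
  have h2 : NN (big0 X) - N0 (big0 X) = 2 * ∑ i, ∑ k, Complex.normSq (X.1 i k) := by
    unfold N0 NN rw'
    simp [big0, Fintype.sum_sum_type]
    rw [sum_comm (f := fun x y => Complex.normSq (X.1 y x))]
    ring
  rw [h1, h2, map_mul]
  have h3 : Complex.normSq (∑ i, star (X.1 i i)) ≤ p * ∑ i, Complex.normSq (X.1 i i) := by
    have h4 : ‖∑ i, star (X.1 i i)‖ ≤ ∑ i, ‖X.1 i i‖ := by
      refine (norm_sum_le _ _).trans (le_of_eq ?_)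
      exact sum_congr rfl fun i _ => norm_star _
    have h5 : (∑ i, ‖X.1 i i‖) ^ 2 ≤ (univ : Finset (Fin p)).card * ∑ i, ‖X.1 i i‖ ^ 2 :=
      sq_sum_le_card_mul_sum_sq
    rw [card_univ, Fintype.card_fin] at h5
    rw [Complex.normSq_eq_norm_sq]
    simp only [Complex.normSq_eq_norm_sq]
    exact (pow_le_pow_left₀ (norm_nonneg _) h4 2).trans h5
  have h6 : ∑ i, Complex.normSq (X.1 i i) ≤ ∑ i, ∑ k, Complex.normSq (X.1 i k) :=
    sum_le_sum fun i _ => single_le_sum (f := fun k => Complex.normSq (X.1 i k))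
      (fun k _ => Complex.normSq_nonneg _) (mem_univ i)
  have h7 : Complex.normSq 2 = 4 := by
    rw [Complex.normSq_ofNat]
    norm_num
  rw [h7]
  have hp : (0 : ℝ) ≤ p := Nat.cast_nonneg p
  have h8 := mul_le_mul_of_nonneg_left h6 hp
  nlinarith

theorem NN_x0 : ip (x0 p q) (x0 p q) = 2 * p := by
  unfold ip x0 trace
  simp [big0, Fintype.sum_sum_type, Matrix.mul_apply, Matrix.one_apply]
  ring

/-- the part of degree zero -/
theorem part0 (G : Gr p q) (hp : 0 < p) {d : ℕ} {X : Fin d → Matrix (I p q) (I p q) ℂ}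
    (h : ONB (G.h0.map big0L) X) : ∑ j, N0 (X j) ≤ d - 1 := by
  have hx : x0 p q ∈ G.h0.map big0L := ⟨_, G.one, rfl⟩
  have h1 : (2 * p : ℂ) = ∑ j, (Complex.normSq (ip (X j) (x0 p q)) : ℂ) := by
    have e : ip (x0 p q) (x0 p q) = ip (x0 p q) (∑ j, ip (X j) (x0 p q) • X j) := by
      rw [← h.exp _ hx]
    rw [← NN_x0 (p := p) (q := q), e, ip_sum_right]
    refine sum_congr rfl fun j _ => ?_
    rw [ip_smul_right, ← ip_conj (X j) (x0 p q), Complex.normSq_eq_conj_mul_self, mul_comm]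
    rfl
  have h2 : (2 * p : ℝ) = ∑ j, Complex.normSq (ip (X j) (x0 p q)) := by exact_mod_cast h1
  have h3 : ∀ j, Complex.normSq (ip (X j) (x0 p q)) ≤ 2 * p * (1 - N0 (X j)) := by
    intro j
    obtain ⟨A, _, hA⟩ := h.mem j
    have hA' : big0 A = X j := hA
    have h4 := ip_x0 A
    have h5 := h.orth j
    rw [ip_self] at h5
    have h6 : NN (X j) = 1 := by exact_mod_cast h5
    rw [hA', h6] at h4
    exact h4
  have h7 := sum_le_sum fun j (_ : j ∈ univ) => h3 j
  rw [← h2, ← mul_sum, sum_sub_distrib, sum_const, card_univ, Fintype.card_fin, nsmul_eq_mul,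
    mul_one] at h7
  have hp' : (0 : ℝ) < 2 * p := by positivity
  have h8 : (1 : ℝ) ≤ d - ∑ j, N0 (X j) := by
    by_contra hcon
    rw [not_le] at hcon
    have := mul_lt_mul_of_pos_left hcon hp'
    linarith
  linarith

/-- the family of all homogeneous basis elements -/
def fam {α β γ : Type} (X0 : α → Matrix (I p q) (I p q) ℂ) (X1 : β → Matrix (I p q) (I p q) ℂ)
    (X2 : γ → Matrix (I p q) (I p q) ℂ) : α ⊕ ((β ⊕ β) ⊕ (γ ⊕ γ)) → Matrix (I p q) (I p q) ℂ :=
  Sum.elim X0 (Sum.elim (Sum.elim X1 (fun i => (X1 i)ᴴ)) (Sum.elim X2 (fun i => (X2 i)ᴴ)))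

theorem sum_fam {α β γ : Type} [Fintype α] [Fintype β] [Fintype γ] {M : Type} [AddCommMonoid M]
    (f : α ⊕ ((β ⊕ β) ⊕ (γ ⊕ γ)) → M) :
    ∑ j, f j = ∑ i, f (Sum.inl i) + ((∑ i, f (Sum.inr (Sum.inl (Sum.inl i))) +
      ∑ i, f (Sum.inr (Sum.inl (Sum.inr i)))) + (∑ i, f (Sum.inr (Sum.inr (Sum.inl i))) +
      ∑ i, f (Sum.inr (Sum.inr (Sum.inr i))))) := by
  rw [Fintype.sum_sum_type, Fintype.sum_sum_type, Fintype.sum_sum_type, Fintype.sum_sum_type]

theorem exp_H {β : Type} [Fintype β] {X : β → Matrix (I p q) (I p q) ℂ}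
    {Y : Matrix (I p q) (I p q) ℂ} (h : Y = ∑ j, ip (X j) Y • X j) :
    Yᴴ = ∑ j, ip (X j)ᴴ Yᴴ • (X j)ᴴ := by
  conv_lhs => rw [h]
  rw [conjTranspose_sum]
  refine sum_congr rfl fun j _ => ?_
  rw [conjTranspose_smul, ip_conj]
  congr 1
  unfold ip
  rw [conjTranspose_conjTranspose, trace_mul_comm]

theorem fam_exp (G : Gr p q) {α β γ : Type} [Fintype α] [Fintype β] [Fintype γ] [DecidableEq α]
    [DecidableEq β] [DecidableEq γ] {X0 : α → Matrix (I p q) (I p q) ℂ}
    {X1 : β → Matrix (I p q) (I p q) ℂ} {X2 : γ → Matrix (I p q) (I p q) ℂ}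
    (h0 : ONB (G.h0.map big0L) X0) (h1 : ONB (G.h1.map big1L) X1) (h2 : ONB (G.h2.map big2L) X2) :
    ∀ Y ∈ G.alg, Y = ∑ j, ip (fam X0 X1 X2 j) Y • fam X0 X1 X2 j := by
  have d0 : ∀ i, Deg 0 (X0 i) := fun i => by
    obtain ⟨A, _, hA⟩ := h0.mem i
    rw [← hA]; exact deg0 A
  have d1 : ∀ i, Deg 1 (X1 i) := fun i => by
    obtain ⟨A, _, hA⟩ := h1.mem i
    rw [← hA]; exact deg1 A
  have d2 : ∀ i, Deg 2 (X2 i) := fun i => by
    obtain ⟨A, _, hA⟩ := h2.mem i
    rw [← hA]; exact deg2 A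
  intro Y hY
  unfold Gr.alg at hY
  induction hY using Submodule.span_induction with
  | mem x hx =>
    rw [sum_fam]
    simp only [fam, Sum.elim_inl, Sum.elim_inr]
    rcases hx with ⟨A, hA, rfl⟩ | ⟨F, hF, rfl | rfl⟩ | ⟨A, hA, rfl | rfl⟩
    · have e := h0.exp (big0 A) ⟨A, hA, rfl⟩
      have z1 : ∀ i, ip (X1 i) (big0 A) = 0 := fun i => ip_deg (d1 i) (deg0 A) (by decide)
      have z2 : ∀ i, ip (X1 i)ᴴ (big0 A) = 0 := fun i => ip_deg (degH (d1 i)) (deg0 A) (by decide)
      have z3 : ∀ i, ip (X2 i) (big0 A) = 0 := fun i => ip_deg (d2 i) (deg0 A) (by decide)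
      have z4 : ∀ i, ip (X2 i)ᴴ (big0 A) = 0 := fun i => ip_deg (degH (d2 i)) (deg0 A) (by decide)
      simp only [z1, z2, z3, z4, zero_smul, sum_const_zero, add_zero]
      exact e
    · have e := h1.exp (big1 F) ⟨F, hF, rfl⟩
      have z0 : ∀ i, ip (X0 i) (big1 F) = 0 := fun i => ip_deg (d0 i) (deg1 F) (by decide)
      have z2 : ∀ i, ip (X1 i)ᴴ (big1 F) = 0 := fun i => ip_deg (degH (d1 i)) (deg1 F) (by decide)
      have z3 : ∀ i, ip (X2 i) (big1 F) = 0 := fun i => ip_deg (d2 i) (deg1 F) (by decide)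
      have z4 : ∀ i, ip (X2 i)ᴴ (big1 F) = 0 := fun i => ip_deg (degH (d2 i)) (deg1 F) (by decide)
      simp only [z0, z2, z3, z4, zero_smul, sum_const_zero, add_zero, zero_add]
      exact e
    · have e := exp_H (h1.exp (big1 F) ⟨F, hF, rfl⟩)
      have z0 : ∀ i, ip (X0 i) (big1 F)ᴴ = 0 := fun i => ip_deg (d0 i) (degH (deg1 F)) (by decide)
      have z2 : ∀ i, ip (X1 i) (big1 F)ᴴ = 0 := fun i => ip_deg (d1 i) (degH (deg1 F)) (by decide)
      have z3 : ∀ i, ip (X2 i) (big1 F)ᴴ = 0 := fun i => ip_deg (d2 i) (degH (deg1 F)) (by decide)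
      have z4 : ∀ i, ip (X2 i)ᴴ (big1 F)ᴴ = 0 := fun i =>
        ip_deg (degH (d2 i)) (degH (deg1 F)) (by decide)
      simp only [z0, z2, z3, z4, zero_smul, sum_const_zero, add_zero, zero_add]
      exact e
    · have e := h2.exp (big2 A) ⟨A, hA, rfl⟩
      have z0 : ∀ i, ip (X0 i) (big2 A) = 0 := fun i => ip_deg (d0 i) (deg2 A) (by decide)
      have z1 : ∀ i, ip (X1 i) (big2 A) = 0 := fun i => ip_deg (d1 i) (deg2 A) (by decide)
      have z2 : ∀ i, ip (X1 i)ᴴ (big2 A) = 0 := fun i => ip_deg (degH (d1 i)) (deg2 A) (by decide)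
      have z4 : ∀ i, ip (X2 i)ᴴ (big2 A) = 0 := fun i => ip_deg (degH (d2 i)) (deg2 A) (by decide)
      simp only [z0, z1, z2, z4, zero_smul, sum_const_zero, add_zero, zero_add]
      exact e
    · have e := exp_H (h2.exp (big2 A) ⟨A, hA, rfl⟩)
      have z0 : ∀ i, ip (X0 i) (big2 A)ᴴ = 0 := fun i => ip_deg (d0 i) (degH (deg2 A)) (by decide)
      have z1 : ∀ i, ip (X1 i) (big2 A)ᴴ = 0 := fun i => ip_deg (d1 i) (degH (deg2 A)) (by decide)
      have z2 : ∀ i, ip (X1 i)ᴴ (big2 A)ᴴ = 0 := fun i =>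
        ip_deg (degH (d1 i)) (degH (deg2 A)) (by decide)
      have z3 : ∀ i, ip (X2 i) (big2 A)ᴴ = 0 := fun i => ip_deg (d2 i) (degH (deg2 A)) (by decide)
      simp only [z0, z1, z2, z3, zero_smul, sum_const_zero, zero_add]
      exact e
  | zero => simp [ip]
  | add x y _ _ hx hy =>
    conv_lhs => rw [hx, hy]
    rw [← sum_add_distrib]
    exact sum_congr rfl fun j _ => by rw [ip_add_right, add_smul]
  | smul a x _ hx =>
    conv_lhs => rw [hx]
    rw [smul_sum]
    exact sum_congr rfl fun j _ => by rw [ip_smul_right, mul_smul]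

theorem cas_aux (G : Gr p q) (hp : 0 < p) (hirr : G.Irr) {d0 a b : ℕ}
    {X0 : Fin d0 → Matrix (I p q) (I p q) ℂ} {X1 : Fin a → Matrix (I p q) (I p q) ℂ}
    {X2 : Fin b → Matrix (I p q) (I p q) ℂ} (hX0 : ONB (G.h0.map big0L) X0)
    (hX1 : ONB (G.h1.map big1L) X1) (hX2 : ONB (G.h2.map big2L) X2) :
    q * (d0 + 2 * a + 2 * b) + (2 * p + q) ≤ (2 * p + q) * (d0 + a) := by
  have hexp := fam_exp G hX0 hX1 hX2
  have hmem : ∀ j, fam X0 X1 X2 j ∈ G.alg := by
    rintro (i | (i | i) | (i | i))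
    · obtain ⟨A, hA, hA'⟩ := hX0.mem i
      show X0 i ∈ G.alg
      rw [← hA']; exact m0 G hA
    · obtain ⟨A, hA, hA'⟩ := hX1.mem i
      show X1 i ∈ G.alg
      rw [← hA']; exact m1 G hA
    · obtain ⟨A, hA, hA'⟩ := hX1.mem i
      show (X1 i)ᴴ ∈ G.alg
      rw [← hA']; exact alg_H G (m1 G hA)
    · obtain ⟨A, hA, hA'⟩ := hX2.mem i
      show X2 i ∈ G.alg
      rw [← hA']; exact m2 G hA
    · obtain ⟨A, hA, hA'⟩ := hX2.mem i
      show (X2 i)ᴴ ∈ G.alg
      rw [← hA']; exact alg_H G (m2 G hA)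
  obtain ⟨c, hc⟩ := hirr (∑ j, fam X0 X1 X2 j * (fam X0 X1 X2 j)ᴴ) (fun s hs =>
    casimir G.alg _ hmem hexp s (fun Y hY => bracket G hs hY)
      (fun Y hY => bracket G (ops_H G hs) hY))
  have hci : ∀ i, c.re = ∑ j, rw' (fam X0 X1 X2 j) i := by
    intro i
    have h1 := congrFun (congrFun hc i) i
    rw [Matrix.sum_apply, sum_congr rfl fun j _ => mul_H_apply (fam X0 X1 X2 j) i,
      Matrix.smul_apply, Matrix.one_apply_eq, smul_eq_mul, mul_one] at h1
    have h2 := congrArg Complex.re h1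
    rw [← h2, Complex.re_sum]
    exact sum_congr rfl fun j _ => Complex.ofReal_re _
  have n0 : ∀ i, NN (X0 i) = 1 := fun i => by
    have := hX0.orth i
    rw [ip_self] at this
    exact_mod_cast this
  have n1 : ∀ i, NN (X1 i) = 1 := fun i => by
    have := hX1.orth i
    rw [ip_self] at this
    exact_mod_cast this
  have n2 : ∀ i, NN (X2 i) = 1 := fun i => by
    have := hX2.orth i
    rw [ip_self] at this
    exact_mod_cast this
  -- the trace
  have htr : ((2 * p + q : ℕ) : ℝ) * c.re = d0 + 2 * a + 2 * b := by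
    have h1 : ∑ i : I p q, c.re = ∑ j, NN (fam X0 X1 X2 j) := by
      rw [sum_congr rfl fun i _ => hci i, sum_comm]
      rfl
    rw [sum_const, card_univ, nsmul_eq_mul, Fintype.card_sum, Fintype.card_sum, Fintype.card_fin,
      Fintype.card_fin, sum_fam] at h1
    simp only [fam, Sum.elim_inl, Sum.elim_inr, NN_H, n0, n1, n2, sum_const, card_univ,
      Fintype.card_fin, nsmul_eq_mul, mul_one] at h1
    have e : ((2 * p + q : ℕ) : ℝ) = ((p + (q + p) : ℕ) : ℝ) := by push_cast; ring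
    rw [e, h1]
    ring
  -- the middle block
  have hmid : (q : ℝ) * c.re ≤ d0 - 1 + a := by
    have h1 : ∑ i : Fin q, c.re = ∑ j, N0 (fam X0 X1 X2 j) := by
      rw [sum_congr rfl fun i _ => hci (Sum.inr (Sum.inl i)), sum_comm]
      rfl
    rw [sum_const, card_univ, nsmul_eq_mul, Fintype.card_fin, sum_fam] at h1
    have k1 : ∀ i, N0 (X1 i) = 1 / 2 := fun i => by
      obtain ⟨A, _, hA⟩ := hX1.mem i
      have hA' : big1 A = X1 i := hA
      have h2 := N0_big1 A
      rw [hA', n1] at h2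
      linarith
    have k2 : ∀ i, N0 (X1 i)ᴴ = 1 / 2 := fun i => by
      obtain ⟨A, _, hA⟩ := hX1.mem i
      have hA' : big1 A = X1 i := hA
      have h2 := N0_big1H A
      rw [hA', n1] at h2
      linarith
    have k3 : ∀ i, N0 (X2 i) = 0 := fun i => by
      obtain ⟨A, _, hA⟩ := hX2.mem i
      have hA' : big2 A = X2 i := hA
      rw [← hA']
      exact N0_big2 A
    have k4 : ∀ i, N0 (X2 i)ᴴ = 0 := fun i => by
      obtain ⟨A, _, hA⟩ := hX2.mem i
      have hA' : big2 A = X2 i := hA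
      rw [← hA']
      exact N0_big2H A
    simp only [fam, Sum.elim_inl, Sum.elim_inr, k1, k2, k3, k4, sum_const, card_univ,
      Fintype.card_fin, nsmul_eq_mul, mul_zero, add_zero] at h1
    have h3 := part0 G hp hX0
    rw [h1]
    linarith
  -- conclusion
  have hR : (q : ℝ) * (d0 + 2 * a + 2 * b) + (2 * p + q) ≤ (2 * p + q) * (d0 + a) := by
    rw [← htr]
    have h4 := mul_le_mul_of_nonneg_left hmid (show (0 : ℝ) ≤ 2 * p + q by positivity)
    push_cast
    nlinarith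
  exact_mod_cast hR

/-- **the Casimir inequality** -/
theorem cas : S_cas := by
  intro p q G hp hirr
  obtain ⟨X0, hX0⟩ := exists_onb (G.h0.map (big0L (p := p) (q := q)))
  obtain ⟨X1, hX1⟩ := exists_onb (G.h1.map (big1L (p := p) (q := q)))
  obtain ⟨X2, hX2⟩ := exists_onb (G.h2.map (big2L (p := p) (q := q)))
  have h := cas_aux G hp hirr hX0 hX1 hX2
  rwa [finrank_map' (big0L (p := p) (q := q)) big0L_inj G.h0,
    finrank_map' (big1L (p := p) (q := q)) big1L_inj G.h1,
    finrank_map' (big2L (p := p) (q := q)) big2L_inj G.h2] at h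

end

end Pool.Agent.W308.PG
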