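import Pool.Agent.W544.PG.Defs

/-!
Project PG, task CAS: generalities (orthonormal bases of spaces of matrices, the Casimir operator).
-/

set_option autoImplicit false
set_option linter.unusedSectionVars false

open Matrix Finset Module

namespace Pool.Agent.W308.PG

open Pool.Agent.W544.PG

noncomputable section

variable {n : Type} [Fintype n] [DecidableEq n]

/-- inner product of matrices -/
def ip (X Y : Matrix n n ℂ) : ℂ := (Xᴴ * Y).trace

theorem ip_add_right (X Y Y' : Matrix n n ℂ) : ip X (Y + Y') = ip X Y + ip X Y' := by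
  unfold ip
  rw [mul_add, trace_add]

theorem ip_smul_right (X Y : Matrix n n ℂ) (c : ℂ) : ip X (c • Y) = c * ip X Y := by
  unfold ip
  rw [mul_smul_comm, trace_smul, smul_eq_mul]

theorem ip_sum_right {J : Type} [Fintype J] (X : Matrix n n ℂ) (Y : J → Matrix n n ℂ) :
    ip X (∑ j, Y j) = ∑ j, ip X (Y j) := by
  unfold ip
  rw [Matrix.mul_sum, trace_sum]

theorem ip_conj (X Y : Matrix n n ℂ) : star (ip X Y) = ip Y X := by
  unfold ip
  rw [← trace_conjTranspose, conjTranspose_mul, conjTranspose_conjTranspose]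

theorem ip_bracket (Z X Y : Matrix n n ℂ) :
    ip (Zᴴ * X - X * Zᴴ) Y = ip X (Z * Y - Y * Z) := by
  unfold ip
  rw [conjTranspose_sub, conjTranspose_mul, conjTranspose_mul, conjTranspose_conjTranspose,
    sub_mul, mul_sub, trace_sub, trace_sub, mul_assoc Xᴴ Z Y, mul_assoc Z Xᴴ Y,
    trace_mul_comm Z (Xᴴ * Y), mul_assoc Xᴴ Y Z]

/-- the Casimir operator commutes -/
theorem casimir {J : Type} [Fintype J] (W : Submodule ℂ (Matrix n n ℂ)) (X : J → Matrix n n ℂ)
    (hmem : ∀ j, X j ∈ W) (hexp : ∀ Y ∈ W, Y = ∑ j, ip (X j) Y • X j) (Z : Matrix n n ℂ)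
    (hZ : ∀ Y ∈ W, Z * Y - Y * Z ∈ W) (hZ' : ∀ Y ∈ W, Zᴴ * Y - Y * Zᴴ ∈ W) :
    (∑ j, X j * (X j)ᴴ) * Z = Z * ∑ j, X j * (X j)ᴴ := by
  rw [← sub_eq_zero, ← neg_eq_zero, neg_sub, Matrix.mul_sum, Matrix.sum_mul, ← sum_sub_distrib]
  have h1 : ∀ i, Z * (X i * (X i)ᴴ) - X i * (X i)ᴴ * Z =
      (Z * X i - X i * Z) * (X i)ᴴ - X i * (Zᴴ * X i - X i * Zᴴ)ᴴ := by
    intro i
    rw [conjTranspose_sub, conjTranspose_mul, conjTranspose_mul, conjTranspose_conjTranspose]
    noncomm_ring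
  have h2 : ∀ i, (Z * X i - X i * Z) * (X i)ᴴ =
      ∑ j, ip (X j) (Z * X i - X i * Z) • (X j * (X i)ᴴ) := by
    intro i
    conv_lhs => rw [hexp _ (hZ _ (hmem i))]
    rw [Matrix.sum_mul]
    exact sum_congr rfl fun j _ => by rw [smul_mul_assoc]
  have h3 : ∀ j, X j * (Zᴴ * X j - X j * Zᴴ)ᴴ =
      ∑ i, ip (X j) (Z * X i - X i * Z) • (X j * (X i)ᴴ) := by
    intro j
    conv_lhs => rw [hexp _ (hZ' _ (hmem j))]
    rw [conjTranspose_sum, Matrix.mul_sum]
    refine sum_congr rfl fun i _ => ?_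
    rw [conjTranspose_smul, mul_smul_comm, ip_conj, ip_bracket]
  rw [sum_congr rfl fun i _ => h1 i, sum_sub_distrib, sum_congr rfl fun i _ => h2 i,
    sum_congr rfl fun i _ => h3 i, sum_comm, sub_self]

/-! ### orthonormal bases -/

/-- matrices as vectors -/
def vec : Matrix n n ℂ →ₗ[ℂ] EuclideanSpace ℂ (n × n) where
  toFun X := WithLp.toLp 2 (fun k => X k.1 k.2)
  map_add' X Y := by ext k; simp
  map_smul' c X := by ext k; simp

/-- vectors as matrices -/
def unvec : EuclideanSpace ℂ (n × n) →ₗ[ℂ] Matrix n n ℂ where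
  toFun v := Matrix.of fun i j => v (i, j)
  map_add' X Y := by ext i j; simp
  map_smul' c X := by ext i j; simp

omit [DecidableEq n] in
theorem unvec_vec (X : Matrix n n ℂ) : unvec (vec X) = X := by
  ext i j
  rfl

omit [DecidableEq n] in
theorem vec_inj : Function.Injective (vec (n := n)) := fun X Y h => by
  rw [← unvec_vec X, ← unvec_vec Y, h]

theorem inner_vec (X Y : Matrix n n ℂ) : inner ℂ (vec X) (vec Y) = ip X Y := by
  unfold ip
  rw [PiLp.inner_apply, Fintype.sum_prod_type, sum_comm]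
  unfold trace
  refine sum_congr rfl fun j _ => ?_
  rw [diag_apply, mul_apply]
  refine sum_congr rfl fun i _ => ?_
  rw [conjTranspose_apply, mul_comm]
  rfl

/-- orthonormal basis -/
structure ONB {J : Type} [Fintype J] [DecidableEq J] (W : Submodule ℂ (Matrix n n ℂ))
    (X : J → Matrix n n ℂ) : Prop where
  mem : ∀ j, X j ∈ W
  orth : ∀ j, ip (X j) (X j) = 1
  exp : ∀ Y ∈ W, Y = ∑ j, ip (X j) Y • X j

theorem exists_onb (W : Submodule ℂ (Matrix n n ℂ)) :
    ∃ X : Fin (finrank ℂ W) → Matrix n n ℂ, ONB W X := by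
  have hfin : finrank ℂ (W.map (vec (n := n))) = finrank ℂ W :=
    (LinearEquiv.finrank_eq (Submodule.equivMapOfInjective vec vec_inj W)).symm
  have hb := (stdOrthonormalBasis ℂ (W.map (vec (n := n)))).reindex (finCongr hfin)
  have hv : ∀ v ∈ W.map (vec (n := n)), vec (unvec v) = v := by
    rintro v ⟨X, _, rfl⟩
    rw [unvec_vec]
  refine ⟨fun j => unvec (hb j : EuclideanSpace ℂ (n × n)), ?_, ?_, ?_⟩
  · intro j
    obtain ⟨X, hX, hXe⟩ := (hb j).2
    rw [← hXe, unvec_vec]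
    exact hX
  · intro j
    rw [← inner_vec, hv _ (hb j).2, ← Submodule.coe_inner, hb.inner_eq_one]
  · intro Y hY
    have h1 := hb.sum_repr' ⟨vec Y, Submodule.mem_map_of_mem hY⟩
    have h2 := congrArg (fun v : W.map (vec (n := n)) => unvec (v : EuclideanSpace ℂ (n × n))) h1
    simp only [Submodule.coe_sum, Submodule.coe_smul, map_sum, map_smul, unvec_vec] at h2
    rw [← h2]
    refine sum_congr rfl fun j _ => ?_
    rw [← inner_vec, hv _ (hb j).2, h2, Submodule.coe_inner]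

end

end Pool.Agent.W308.PG
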