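import Pool.Agent.W308.PG.Cas0

/-!
Project PG, task CAS: brackets of the homogeneous operators.
-/

set_option autoImplicit false
set_option linter.unusedSectionVars false

open Matrix Finset Module

namespace Pool.Agent.W308.PG

open Pool.Agent.W544.PG

noncomputable section

variable {p q : ℕ}

theorem big0_H (X : Matrix (Fin p) (Fin p) ℂ × Matrix (Fin q) (Fin q) ℂ) :
    (big0 X)ᴴ = big0 (X.1ᴴ, X.2ᴴ) := by
  ext (i | i | i) (j | j | j) <;> simp [big0]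

theorem br00 (X X' : Matrix (Fin p) (Fin p) ℂ × Matrix (Fin q) (Fin q) ℂ) :
    big0 X * big0 X' - big0 X' * big0 X =
      big0 (X.1 * X'.1 - X'.1 * X.1, X.2 * X'.2 - X'.2 * X.2) := by
  ext (i | i | i) (j | j | j) <;>
    simp [big0, Matrix.mul_apply, Fintype.sum_sum_type, mul_comm]

theorem br01 (X : Matrix (Fin p) (Fin p) ℂ × Matrix (Fin q) (Fin q) ℂ)
    (F : Matrix (Fin p) (Fin q) ℂ) (h : X.2ᵀ = -X.2) :
    big0 X * big1 F - big1 F * big0 X = big1 (X.1 * F - F * X.2) := by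
  have h' : ∀ a b, X.2 a b = -X.2 b a := fun a b => by
    have := congrFun (congrFun h b) a
    simpa using this
  ext (i | i | i) (j | j | j) <;>
    simp [big0, big1, Matrix.mul_apply, Fintype.sum_sum_type]
  rw [← sum_neg_distrib]
  refine sum_congr rfl fun x _ => ?_
  rw [h' x i]
  ring

theorem br02 (X : Matrix (Fin p) (Fin p) ℂ × Matrix (Fin q) (Fin q) ℂ)
    (Y : Matrix (Fin p) (Fin p) ℂ) :
    big0 X * big2 Y - big2 Y * big0 X = big2 (X.1 * Y + Y * X.1ᵀ) := by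
  ext (i | i | i) (j | j | j) <;>
    simp [big0, big2, Matrix.mul_apply, Fintype.sum_sum_type]

theorem br11 (F F' : Matrix (Fin p) (Fin q) ℂ) :
    big1 F * big1 F' - big1 F' * big1 F = big2 (F' * Fᵀ - F * F'ᵀ) := by
  ext (i | i | i) (j | j | j) <;>
    simp [big1, big2, Matrix.mul_apply, Fintype.sum_sum_type]
  ring

theorem br12 (F : Matrix (Fin p) (Fin q) ℂ) (Y : Matrix (Fin p) (Fin p) ℂ) :
    big1 F * big2 Y - big2 Y * big1 F = 0 := by
  ext (i | i | i) (j | j | j) <;>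
    simp [big1, big2, Matrix.mul_apply, Fintype.sum_sum_type]

theorem br22 (Y Y' : Matrix (Fin p) (Fin p) ℂ) : big2 (q := q) Y * big2 Y' - big2 Y' * big2 Y = 0 := by
  ext (i | i | i) (j | j | j) <;>
    simp [big2, Matrix.mul_apply, Fintype.sum_sum_type]

theorem br1s (F F' : Matrix (Fin p) (Fin q) ℂ) :
    big1 F * (big1 F')ᴴ - (big1 F')ᴴ * big1 F =
      big0 (F * F'ᴴ, (F'ᴴ * F)ᵀ - F'ᴴ * F) := by
  ext (i | i | i) (j | j | j) <;>
    simp [big1, big0, Matrix.mul_apply, Fintype.sum_sum_type, mul_comm]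

theorem br2s (Y : Matrix (Fin p) (Fin p) ℂ) (F : Matrix (Fin p) (Fin q) ℂ) (h : Yᵀ = -Y) :
    big2 Y * (big1 F)ᴴ - (big1 F)ᴴ * big2 Y = -big1 (Y * (Fᴴ)ᵀ) := by
  have h' : ∀ a b, Y a b = -Y b a := fun a b => by
    have := congrFun (congrFun h b) a
    simpa using this
  ext (i | i | i) (j | j | j) <;>
    simp [big1, big2, Matrix.mul_apply, Fintype.sum_sum_type]
  rw [← sum_neg_distrib]
  refine sum_congr rfl fun x _ => ?_
  rw [h' x j]
  ring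

theorem br22s (Y Y' : Matrix (Fin p) (Fin p) ℂ) (h : Yᵀ = -Y) (h2 : Y'ᵀ = -Y') :
    big2 (q := q) Y * (big2 Y')ᴴ - (big2 Y')ᴴ * big2 Y = big0 (Y * Y'ᴴ, 0) := by
  have h' : ∀ a b, Y a b = -Y b a := fun a b => by
    have := congrFun (congrFun h b) a
    simpa using this
  have h2' : ∀ a b, Y' a b = -Y' b a := fun a b => by
    have := congrFun (congrFun h2 b) a
    simpa using this
  ext (i | i | i) (j | j | j) <;>
    simp [big0, big2, Matrix.mul_apply, Fintype.sum_sum_type]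
  refine sum_congr rfl fun x _ => ?_
  rw [h' x j, h2' x i]
  simp [mul_comm]

/-! ### the Lie algebra -/

variable (G : Gr p q)

theorem ops_H {Z : Matrix (I p q) (I p q) ℂ} (h : Z ∈ G.ops) : Zᴴ ∈ G.ops := by
  rcases h with ⟨X, hX, rfl⟩ | ⟨F, hF, rfl | rfl⟩ | ⟨Y, hY, rfl | rfl⟩
  · rw [big0_H]
    exact Or.inl ⟨_, G.star0 X hX, rfl⟩
  · exact Or.inr (Or.inl ⟨F, hF, Or.inr rfl⟩)
  · exact Or.inr (Or.inl ⟨F, hF, Or.inl (conjTranspose_conjTranspose _)⟩)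
  · exact Or.inr (Or.inr ⟨Y, hY, Or.inr rfl⟩)
  · exact Or.inr (Or.inr ⟨Y, hY, Or.inl (conjTranspose_conjTranspose _)⟩)

theorem alg_H {Z : Matrix (I p q) (I p q) ℂ} (h : Z ∈ G.alg) : Zᴴ ∈ G.alg := by
  unfold Gr.alg at h ⊢
  induction h using Submodule.span_induction with
  | mem x hx => exact Submodule.subset_span (ops_H G hx)
  | zero => rw [conjTranspose_zero]; exact Submodule.zero_mem _
  | add x y _ _ hx hy => rw [conjTranspose_add]; exact Submodule.add_mem _ hx hy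
  | smul a x _ hx => rw [conjTranspose_smul]; exact Submodule.smul_mem _ _ hx

theorem m0 {X : Matrix (Fin p) (Fin p) ℂ × Matrix (Fin q) (Fin q) ℂ} (h : X ∈ G.h0) :
    big0 X ∈ G.alg := Submodule.subset_span (Or.inl ⟨X, h, rfl⟩)

theorem m1 {F : Matrix (Fin p) (Fin q) ℂ} (h : F ∈ G.h1) : big1 F ∈ G.alg :=
  Submodule.subset_span (Or.inr (Or.inl ⟨F, h, Or.inl rfl⟩))

theorem m2 {Y : Matrix (Fin p) (Fin p) ℂ} (h : Y ∈ G.h2) : big2 Y ∈ G.alg :=
  Submodule.subset_span (Or.inr (Or.inr ⟨Y, h, Or.inl rfl⟩))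

/-- `[Z, Y]` is in the algebra -/
def Q (Z Y : Matrix (I p q) (I p q) ℂ) : Prop := Z * Y - Y * Z ∈ G.alg

theorem Q_symm {Z Y : Matrix (I p q) (I p q) ℂ} (h : Q G Z Y) : Q G Y Z := by
  unfold Q at h ⊢
  rw [← neg_sub]
  exact Submodule.neg_mem _ h

theorem Q_H {Z Y : Matrix (I p q) (I p q) ℂ} (h : Q G Z Y) : Q G Zᴴ Yᴴ := by
  unfold Q at h ⊢
  have h1 := Submodule.neg_mem _ (alg_H G h)
  rw [conjTranspose_sub, conjTranspose_mul, conjTranspose_mul, neg_sub] at h1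
  exact h1

theorem Q00 {X X' : Matrix (Fin p) (Fin p) ℂ × Matrix (Fin q) (Fin q) ℂ} (h : X ∈ G.h0)
    (h' : X' ∈ G.h0) : Q G (big0 X) (big0 X') := by
  unfold Q
  rw [br00]
  exact m0 G (G.b00 X h X' h')

theorem Q01 {X : Matrix (Fin p) (Fin p) ℂ × Matrix (Fin q) (Fin q) ℂ} (h : X ∈ G.h0)
    {F : Matrix (Fin p) (Fin q) ℂ} (h' : F ∈ G.h1) : Q G (big0 X) (big1 F) := by
  unfold Q
  rw [br01 _ _ (G.skew0 X h)]
  exact m1 G (G.b01 X h F h')

theorem Q02 {X : Matrix (Fin p) (Fin p) ℂ × Matrix (Fin q) (Fin q) ℂ} (h : X ∈ G.h0)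
    {Y : Matrix (Fin p) (Fin p) ℂ} (h' : Y ∈ G.h2) : Q G (big0 X) (big2 Y) := by
  unfold Q
  rw [br02]
  exact m2 G (G.b02 X h Y h')

theorem Q11 {F F' : Matrix (Fin p) (Fin q) ℂ} (h : F ∈ G.h1) (h' : F' ∈ G.h1) :
    Q G (big1 F) (big1 F') := by
  unfold Q
  rw [br11]
  exact m2 G (G.b11 F h F' h')

theorem Q12 (F : Matrix (Fin p) (Fin q) ℂ) (Y : Matrix (Fin p) (Fin p) ℂ) :
    Q G (big1 F) (big2 Y) := by
  unfold Q
  rw [br12]
  exact Submodule.zero_mem _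

theorem Q22 (Y Y' : Matrix (Fin p) (Fin p) ℂ) : Q G (big2 Y) (big2 Y') := by
  unfold Q
  rw [br22]
  exact Submodule.zero_mem _

theorem Q1s {F F' : Matrix (Fin p) (Fin q) ℂ} (h : F ∈ G.h1) (h' : F' ∈ G.h1) :
    Q G (big1 F) (big1 F')ᴴ := by
  unfold Q
  rw [br1s]
  exact m0 G (G.b1s F h F' h')

theorem Q2s {Y : Matrix (Fin p) (Fin p) ℂ} {F : Matrix (Fin p) (Fin q) ℂ} (h : Y ∈ G.h2)
    (h' : F ∈ G.h1) : Q G (big2 Y) (big1 F)ᴴ := by
  unfold Q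
  rw [br2s _ _ (G.skew2 Y h)]
  exact Submodule.neg_mem _ (m1 G (G.b2s Y h F h'))

theorem Q22s {Y Y' : Matrix (Fin p) (Fin p) ℂ} (h : Y ∈ G.h2) (h' : Y' ∈ G.h2) :
    Q G (big2 Y) (big2 Y')ᴴ := by
  unfold Q
  rw [br22s _ _ (G.skew2 Y h) (G.skew2 Y' h')]
  exact m0 G (G.b22 Y h Y' h')

theorem Q_H' {Z Y : Matrix (I p q) (I p q) ℂ} (h : Q G Z Yᴴ) : Q G Zᴴ Y := by
  have := Q_H G h
  rwa [conjTranspose_conjTranspose] at this

theorem Q0m {X : Matrix (Fin p) (Fin p) ℂ × Matrix (Fin q) (Fin q) ℂ} (h : X ∈ G.h0)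
    {Z : Matrix (I p q) (I p q) ℂ}
    (hZ : ∀ X' ∈ G.h0, Q G (big0 X') Z) : Q G (big0 X) Zᴴ := by
  have h1 := Q_H G (hZ _ (G.star0 X h))
  rwa [big0_H, conjTranspose_conjTranspose, conjTranspose_conjTranspose, Prod.mk.eta] at h1

theorem bracket_ops {Z Y : Matrix (I p q) (I p q) ℂ} (hZ : Z ∈ G.ops) (hY : Y ∈ G.ops) :
    Q G Z Y := by
  rcases hZ with ⟨X, hX, rfl⟩ | ⟨F, hF, rfl | rfl⟩ | ⟨A, hA, rfl | rfl⟩ <;>
    rcases hY with ⟨X', hX', rfl⟩ | ⟨F', hF', rfl | rfl⟩ | ⟨A', hA', rfl | rfl⟩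
  · exact Q00 G hX hX'
  · exact Q01 G hX hF'
  · exact Q0m G hX fun X' hX' => Q01 G hX' hF'
  · exact Q02 G hX hA'
  · exact Q0m G hX fun X' hX' => Q02 G hX' hA'
  · exact Q_symm G (Q01 G hX' hF)
  · exact Q11 G hF hF'
  · exact Q1s G hF hF'
  · exact Q12 G F A'
  · have h1 := Q_H G (Q_symm G (Q2s G hA' hF))
    rwa [conjTranspose_conjTranspose] at h1
  · exact Q_symm G (Q0m G hX' fun X' hX' => Q01 G hX' hF)
  · exact Q_symm G (Q1s G hF' hF)
  · exact Q_H G (Q11 G hF hF')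
  · exact Q_symm G (Q2s G hA' hF)
  · exact Q_H G (Q12 G F A')
  · exact Q_symm G (Q02 G hX' hA)
  · exact Q_symm G (Q12 G F' A)
  · exact Q2s G hA hF'
  · exact Q22 G A A'
  · exact Q22s G hA hA'
  · exact Q_symm G (Q0m G hX' fun X' hX' => Q02 G hX' hA)
  · have h1 := Q_H G (Q2s G hA hF')
    rwa [conjTranspose_conjTranspose] at h1
  · exact Q_H G (Q_symm G (Q12 G F' A))
  · exact Q_symm G (Q22s G hA' hA)
  · exact Q_H G (Q22 G A A')

theorem bracket {Z Y : Matrix (I p q) (I p q) ℂ} (hZ : Z ∈ G.ops) (hY : Y ∈ G.alg) :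
    Z * Y - Y * Z ∈ G.alg := by
  unfold Gr.alg at hY
  induction hY using Submodule.span_induction with
  | mem x hx => exact bracket_ops G hZ hx
  | zero => simp
  | add x y _ _ hx hy =>
    have : Z * (x + y) - (x + y) * Z = (Z * x - x * Z) + (Z * y - y * Z) := by noncomm_ring
    rw [this]
    exact Submodule.add_mem _ hx hy
  | smul a x _ hx =>
    have : Z * (a • x) - (a • x) * Z = a • (Z * x - x * Z) := by
      rw [mul_smul_comm, smul_mul_assoc, smul_sub]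
    rw [this]
    exact Submodule.smul_mem _ _ hx

end

end Pool.Agent.W308.PG
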