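import Pool.Agent.W619.Y.Stm2

/-! Project PG: regular pluricanonical forms on a subfield are good. -/

set_option autoImplicit false
set_option linter.overlappingInstances false
set_option linter.unusedSectionVars false

universe u v

open FF IntermediateField Pool.Agent.W619.PQ Pool.Agent.W619.PL Pool.Agent.W619.TW
  Pool.Agent.W603.LV Pool.Agent.W619.Y

namespace Pool.Agent.W308.PG.YLOC

section

variable {k : Type v} {K L : Type u} [Field k] [CharZero k] [Field K] [Field L] [Algebra k K]
  [Algebra k L] [Algebra K L] [IsScalarTower k K L]

theorem der_sum_apply {A N ι : Type*} [CommRing A] [Algebra k A] [AddCommGroup N] [Module A N]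
    [Module k N] (s : Finset ι) (G : ι → Derivation k A N) (f : A) :
    (∑ c ∈ s, G c) f = ∑ c ∈ s, G c f := by
  classical
  induction s using Finset.induction_on with
  | empty => rfl
  | insert a s ha ih =>
    rw [Finset.sum_insert ha, Finset.sum_insert ha, ← ih]
    rfl

/-- expansion of a derivation in coordinates -/
theorem expand {d : ℕ} (y : Fin d → K) (E : Fin d → Derivation k K K)
    (hy : IsTranscendenceBasis k y) (hE : ∀ i j, E i (y j) = if i = j then 1 else 0)
    (D : Derivation k L L) (f : K) :
    D (algebraMap K L f) = ∑ c, algebraMap K L (E c f) * D (algebraMap K L (y c)) := by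
  have h := der_zero ((D.compAlgebraMap K) -
    ∑ c, (D (algebraMap K L (y c))) • ((Algebra.linearMap K L).compDer (E c))) y hy
    (fun i => by
      rw [Derivation.sub_apply, der_sum_apply]
      change D (algebraMap K L (y i)) -
        ∑ c, D (algebraMap K L (y c)) * algebraMap K L (E c (y i)) = 0
      rw [Finset.sum_eq_single i]
      · rw [hE, if_pos rfl, map_one, mul_one, sub_self]
      · intro c _ hc
        rw [hE, if_neg hc, map_zero, mul_zero]
      · intro h
        exact absurd (Finset.mem_univ i) h) f
  rw [Derivation.sub_apply, der_sum_apply] at h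
  change D (algebraMap K L f) -
    ∑ c, D (algebraMap K L (y c)) * algebraMap K L (E c f) = 0 at h
  rw [sub_eq_zero.1 h]
  apply Finset.sum_congr rfl
  intro c _
  rw [mul_comm]

/-- expansion of a derivation of `K` -/
theorem expandK {d : ℕ} (y : Fin d → K) (E : Fin d → Derivation k K K)
    (hy : IsTranscendenceBasis k y) (hE : ∀ i j, E i (y j) = if i = j then 1 else 0)
    (D : Derivation k K K) : D = ∑ l, D (y l) • E l := by
  ext f
  have h := expand (L := K) y E hy hE D f
  simp only [Algebra.algebraMap_self, RingHom.id_apply] at h
  rw [h, der_sum_apply]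
  apply Finset.sum_congr rfl
  intro c _
  change E c f * D (y c) = D (y c) * E c f
  rw [mul_comm]

end

theorem main (h : S_FRAME.{u, v}) (h' : S_DIVR.{u, v}) : S_YLOC.{u, v} := by
  intro k L _ _ _ _ M d n m hd hn hfin η hη hreg y E hy hE w hw
  by_cases htriv : ∃ f : M, w.ord (algebraMap M L f) ≠ 0
  · obtain ⟨e, u, hu⟩ := exists_over (K := M) w htriv
    have hdiv : IsDivisorial u d := h' k M L d n u w e hd hn hu hw
    obtain ⟨y', E', i0, hy', hE', -, hyr, hpres⟩ := h k M d hd hfin u hdiv
    have hregL : ∀ f : M, u.Reg f → w.Reg (algebraMap M L f) := by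
      intro f hf
      rcases hf with hf | hf
      · left; rw [hf, map_zero]
      · right
        rw [hu.2]
        exact mul_nonneg (by positivity) hf
    refine ⟨Matrix.of fun l c => algebraMap M L (E' c (y l)), fun c => algebraMap M L (y' c),
      fun c => hregL _ (hyr c), ?_, ?_⟩
    · intro D l
      exact expand y' E' hy' hE' D (y l)
    · set A : Matrix (Fin d) (Fin d) M := Matrix.of fun c l => E' c (y l) with hA
      have h1 : η E' = A.det ^ m * η E := by
        have h2 := hη A E
        have h3 : (fun i => ∑ j, A i j • E j) = E' := by
          funext i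
          exact (expandK y E hy hE (E' i)).symm
        rw [h3] at h2
        exact h2
      have h4 : (Matrix.of fun l c => algebraMap M L (E' c (y l))).det = algebraMap M L A.det := by
        rw [RingHom.map_det, ← Matrix.det_transpose]
        rfl
      rw [h4]
      have h5 : ((η E : M) : L) * algebraMap M L A.det ^ m = algebraMap M L (η E') := by
        rw [h1, map_mul, map_pow, mul_comm]
        rfl
      rw [h5]
      exact hregL _ (hreg u hdiv E' hpres)
  · push Not at htriv
    refine ⟨1, fun l => (y l : L), fun c => Or.inr (htriv (y c)).ge, ?_, ?_⟩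
    · intro D l
      rw [Finset.sum_eq_single l]
      · rw [Matrix.one_apply_eq, one_mul]
      · intro c _ hc
        rw [Matrix.one_apply_ne (Ne.symm hc), zero_mul]
      · intro h
        exact absurd (Finset.mem_univ l) h
    · rw [Matrix.det_one, one_pow, mul_one]
      exact Or.inr (htriv (η E)).ge

end Pool.Agent.W308.PG.YLOC
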